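import Pool.Agent.Y290.L1.Lim

/-!
# MP_8db9bd_an, Q2: the polynomial numerical indices of the complex space `ℓ₁`

`Ell1 ι = lp (fun _ : ι => ℂ) 1` is the complex space `ℓ₁(ι)`; `polyIndex X k` is the `k`-th
polynomial numerical index of `X`, the infimum of the numerical radii `numRadius A` of the
`k`-homogeneous polynomials `x ↦ A (x, …, x)` of norm `polyNorm A = 1`
(file `Pool/Agent/Y290/L1/Defs.lean`).

Idea of the proof. Lower bound: for `x` of norm one and numbers `c j` of modulus at most one the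
points `y(z)` with the coordinates `x j (1 + c j z)²` have the norming functionals with the
coefficients `conj (sgn (x j)) (1 + conj (c j z)) / (1 + c j z)`, so that the numerical values are
`U(z) + conj z V(z)` with analytic `U`, `V` and `V(0) = ‖P(x)‖` for suitable `c`. On the circle
`|z| = ρ` one has `conj z = ρ² / z`, and the maximum principle, with the weight
`(1 + d z / (1 + ρ²))^(2k)`, `d = ∑ |x j| c j`, gives `ρ ‖P(x)‖ ≤ (1 + ρ²)^k v(P)`. Upper bound:
the symmetrization of `(w₁ + w₂)^(2k-1)`, `x = w²`, under the changes of signs.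
-/

set_option autoImplicit false

open Filter Topology

namespace Pool.Agent.Results.MP_8db9bd_an.EllOneIndex

open Pool.Agent.Y290.L1

/-- **The polynomial numerical indices of the complex spaces `ℓ₁(ι)`, `|ι| ≥ 2`** (in particular
of `ℓ₁`). For every `k ≥ 2` the index is at least `√((2k-1)^(2k-1) / (2k)^(2k))` and at most
`√((2k-1)^(2k-1) / (2k)^(2k)) + 2^(-k)`; it is at most the supremum over `0 ≤ s ≤ 1` of
`√(s (1 - s)) (s^(k-1) + (1 - s)^(k-1))`, in particular at most `1/2` for `k = 2`; and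
`√k` times the `k`-th index tends to `1 / √(2e)`. -/
theorem result (ι : Type) [Nontrivial ι] :
    (∀ k : ℕ, 2 ≤ k →
      √((2 * (k : ℝ) - 1) ^ (2 * k - 1) / (2 * (k : ℝ)) ^ (2 * k)) ≤ polyIndex (Ell1 ι) k ∧
      polyIndex (Ell1 ι) k ≤
        √((2 * (k : ℝ) - 1) ^ (2 * k - 1) / (2 * (k : ℝ)) ^ (2 * k)) + (1 / 2) ^ k ∧
      ∀ B : ℝ, (∀ s : ℝ, 0 ≤ s → s ≤ 1 →
        √(s * (1 - s)) * (s ^ (k - 1) + (1 - s) ^ (k - 1)) ≤ B) → polyIndex (Ell1 ι) k ≤ B) ∧
    polyIndex (Ell1 ι) 2 ≤ 1 / 2 ∧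
    Tendsto (fun k : ℕ => √(k : ℝ) * polyIndex (Ell1 ι) k) atTop
      (𝓝 (1 / √(2 * Real.exp 1))) := by
  obtain ⟨p, q, hpq⟩ := exists_pair_ne ι
  refine ⟨fun k hk => ?_, upper_two hpq, limit hpq⟩
  obtain ⟨m, rfl⟩ : ∃ m, k = m + 2 := ⟨k - 2, by omega⟩
  have e1 : (2 * ((m + 2 : ℕ) : ℝ) - 1) ^ (2 * (m + 2) - 1) / (2 * ((m + 2 : ℕ) : ℝ)) ^ (2 * (m + 2)) =
      phi (2 * m + 3) := by
    rw [phi, show 2 * (m + 2) - 1 = 2 * m + 3 by omega, show 2 * (m + 2) = 2 * m + 3 + 1 by ring]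
    push_cast
    congr 2 <;> ring
  rw [e1]
  refine ⟨lower_gen m hpq, ?_, fun B hB => ?_⟩
  · have := upper_gen (m + 1) hpq
    rwa [show 2 * (m + 1) + 1 = 2 * m + 3 by ring, show m + 1 + 1 = m + 2 by ring] at this
  · exact upper_sup (m + 1) hpq hB

end Pool.Agent.Results.MP_8db9bd_an.EllOneIndex
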